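import Mathlib

/-!
# Project HW (helper757): the number of zeros in long windows, abstract form
-/

set_option autoImplicit false

namespace Pool.Agent.Y338.HW

open Finset

theorem cnt_abs (Z : Set ℂ) (ord : ℂ → ℝ) (h K₀ : ℝ) (hh : 0 < h)
    (hK : 0 ≤ K₀)
    (hwin : ∀ c : ℝ, 1 ≤ c → ∀ S : Finset ℂ, (∀ ρ ∈ S, ρ ∈ Z ∧ |ρ.im - c| ≤ h) →
      ∑ ρ ∈ S, ord ρ ≤ K₀ * (1 + Real.log c))
    (hcomp : ∀ A : ℝ, ∃ B : ℝ, 0 ≤ B ∧ ∀ S : Finset ℂ, (∀ ρ ∈ S, ρ ∈ Z ∧ |ρ.im| ≤ A) →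
      ∑ ρ ∈ S, ord ρ ≤ B) :
    ∃ K : ℝ, 0 ≤ K ∧ ∀ H : ℝ, 1 ≤ H → ∃ B : ℝ, 0 ≤ B ∧ ∀ t : ℝ, 1 ≤ t →
      ∀ S : Finset ℂ, (∀ ρ ∈ S, ρ ∈ Z ∧ |ρ.im - t| ≤ H / 2) →
        ∑ ρ ∈ S, ord ρ ≤ K * H * Real.log t + B := by
  classical
  set h' : ℝ := min h 1 with hh'
  have hh'0 : 0 < h' := lt_min hh one_pos
  have hh'1 : h' ≤ 1 := min_le_right _ _
  have hh'h : h' ≤ h := min_le_left _ _
  refine ⟨(1 / h' + 2) * K₀, by positivity, fun H hH => ?_⟩
  obtain ⟨B₂, hB₂, hB₂'⟩ := hcomp (2 * H + 2)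
  refine ⟨3 * ((H / h' + 2) * K₀) + B₂, by positivity, fun t ht S hS => ?_⟩
  have hlt : 0 ≤ Real.log t := Real.log_nonneg ht
  by_cases htH : t < H + 1
  · have h1 := hB₂' S (fun ρ hρ => ⟨(hS ρ hρ).1, by
      have h2 := abs_le.1 (hS ρ hρ).2
      rw [abs_le]
      constructor <;> linarith [h2.1, h2.2]⟩)
    have h3 : 0 ≤ (1 / h' + 2) * K₀ * H * Real.log t := by positivity
    have h4 : 0 ≤ 3 * ((H / h' + 2) * K₀) := by positivity
    linarith
  · have htH' : H + 1 ≤ t := not_lt.mp htH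
    set n : ℕ := ⌈H / h'⌉₊ + 1 with hn
    have hnle : (n : ℝ) ≤ H / h' + 2 := by
      have h1 : (⌈H / h'⌉₊ : ℝ) < H / h' + 1 := Nat.ceil_lt_add_one (by positivity)
      rw [hn]
      push_cast
      linarith
    set idx : ℂ → ℕ := fun ρ => ⌊(ρ.im - (t - H / 2)) / h'⌋₊ with hidx
    have hpos : ∀ ρ ∈ S, 0 ≤ (ρ.im - (t - H / 2)) / h' := by
      intro ρ hρ
      have h2 := abs_le.1 (hS ρ hρ).2
      apply div_nonneg _ hh'0.le
      linarith [h2.1]
    have hmaps : ∀ ρ ∈ S, idx ρ ∈ range n := by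
      intro ρ hρ
      have h2 := abs_le.1 (hS ρ hρ).2
      rw [mem_range]
      have h3 : (idx ρ : ℝ) ≤ H / h' := by
        calc (idx ρ : ℝ) ≤ (ρ.im - (t - H / 2)) / h' := Nat.floor_le (hpos ρ hρ)
          _ ≤ H / h' := by
              apply div_le_div_of_nonneg_right _ hh'0.le
              linarith [h2.2]
      have h4 : (idx ρ : ℝ) ≤ (⌈H / h'⌉₊ : ℝ) := h3.trans (Nat.le_ceil _)
      have h5 : idx ρ ≤ ⌈H / h'⌉₊ := by exact_mod_cast h4
      omega
    have hfib : ∑ ρ ∈ S, ord ρ = ∑ i ∈ range n, ∑ ρ ∈ S.filter (fun ρ => idx ρ = i), ord ρ :=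
      (sum_fiberwise_of_maps_to hmaps _).symm
    rw [hfib]
    have hlog3 : Real.log (3 * t) ≤ 2 + Real.log t := by
      rw [Real.log_mul (by norm_num) (by linarith)]
      have := Real.log_le_sub_one_of_pos (by norm_num : (0 : ℝ) < 3)
      linarith
    have hone : ∀ i ∈ range n, ∑ ρ ∈ S.filter (fun ρ => idx ρ = i), ord ρ ≤
        K₀ * (3 + Real.log t) := by
      intro i hi
      rw [mem_range] at hi
      have hiR : (i : ℝ) + 1 ≤ n := by exact_mod_cast hi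
      have hc1 : 1 ≤ t - H / 2 + i * h' := by
        have : 0 ≤ (i : ℝ) * h' := by positivity
        linarith
      have hc3 : t - H / 2 + i * h' ≤ 3 * t := by
        have h1 : (i : ℝ) * h' ≤ (H / h' + 1) * h' := by
          apply mul_le_mul_of_nonneg_right _ hh'0.le
          linarith
        have h2 : (H / h' + 1) * h' = H + h' := by
          field_simp
        linarith
      have h1 := hwin (t - H / 2 + i * h') hc1 (S.filter (fun ρ => idx ρ = i)) (by
        intro ρ hρ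
        rw [mem_filter] at hρ
        refine ⟨(hS ρ hρ.1).1, ?_⟩
        have h3 := Nat.floor_le (hpos ρ hρ.1)
        have h4 := Nat.lt_floor_add_one ((ρ.im - (t - H / 2)) / h')
        have h5 : ⌊(ρ.im - (t - H / 2)) / h'⌋₊ = i := hρ.2
        rw [h5] at h3 h4
        rw [le_div_iff₀ hh'0] at h3
        rw [div_lt_iff₀ hh'0] at h4
        rw [abs_le]
        constructor <;> linarith)
      refine h1.trans ?_
      apply mul_le_mul_of_nonneg_left _ hK
      have h6 : Real.log (t - H / 2 + i * h') ≤ Real.log (3 * t) :=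
        Real.log_le_log (by linarith) hc3
      linarith
    have hsum : ∑ i ∈ range n, ∑ ρ ∈ S.filter (fun ρ => idx ρ = i), ord ρ ≤
        n * (K₀ * (3 + Real.log t)) := by
      calc _ ≤ ∑ _i ∈ range n, K₀ * (3 + Real.log t) := sum_le_sum hone
        _ = _ := by rw [sum_const, card_range, nsmul_eq_mul]
    refine hsum.trans ?_
    have h7 : 0 ≤ K₀ * (3 + Real.log t) := by positivity
    have h8 : (n : ℝ) * (K₀ * (3 + Real.log t)) ≤ (H / h' + 2) * (K₀ * (3 + Real.log t)) :=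
      mul_le_mul_of_nonneg_right hnle h7
    refine h8.trans ?_
    have h9 : H / h' + 2 ≤ (1 / h' + 2) * H := by
      have : (1 / h' + 2) * H = H / h' + 2 * H := by ring
      rw [this]
      linarith
    have h10 : (H / h' + 2) * (K₀ * Real.log t) ≤ ((1 / h' + 2) * H) * (K₀ * Real.log t) :=
      mul_le_mul_of_nonneg_right h9 (by positivity)
    nlinarith

end Pool.Agent.Y338.HW
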