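import Pool.Agent.Y757.HW.Stm0
import Pool.Agent.Y757.LM.Main
import Pool.Agent.Y338.HW.CntAux

/-!
# Project HW (helper757): the number of zeros of the zeta function in long windows
-/

set_option autoImplicit false

namespace Pool.Agent.Y338.HW

open Pool.Agent.Y757.HW
open Pool.Agent.TH809.MZ (ZZ)
open Pool.Agent.Y757.LM (NW ZZ_finite zeta_compact window_all)

/-- the zeros in the critical strip -/
def Zs : Set ℂ := {ρ : ℂ | riemannZeta ρ = 0 ∧ 0 < ρ.re ∧ ρ.re < 1}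

theorem cnt_window (c h : ℝ) (S : Finset ℂ) (hS : ∀ ρ ∈ S, ρ ∈ Zs ∧ |ρ.im - c| ≤ h) :
    ∑ ρ ∈ S, (analyticOrderNatAt riemannZeta ρ : ℝ) ≤ (NW c h : ℝ) := by
  classical
  unfold NW
  rw [finsum_mem_eq_finite_toFinset_sum _ (ZZ_finite c h)]
  push_cast
  refine Finset.sum_le_sum_of_subset_of_nonneg ?_ (fun _ _ _ => Nat.cast_nonneg _)
  intro ρ hρ
  rw [Set.Finite.mem_toFinset]
  obtain ⟨⟨h2, h3, h4⟩, h5⟩ := hS ρ hρ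
  exact ⟨h2, h3, h4, h5⟩

theorem cnt_compact (A : ℝ) : ∃ B : ℝ, 0 ≤ B ∧ ∀ S : Finset ℂ, (∀ ρ ∈ S, ρ ∈ Zs ∧ |ρ.im| ≤ A) →
    ∑ ρ ∈ S, (analyticOrderNatAt riemannZeta ρ : ℝ) ≤ B := by
  classical
  have hcomp : IsCompact (Set.Icc (0 : ℝ) 1 ×ℂ Set.Icc (-A) A) :=
    isCompact_Icc.reProdIm isCompact_Icc
  have hfin := zeta_compact hcomp
  refine ⟨∑ ρ ∈ hfin.toFinset, (analyticOrderNatAt riemannZeta ρ : ℝ),
    Finset.sum_nonneg fun _ _ => Nat.cast_nonneg _, fun S hS => ?_⟩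
  refine Finset.sum_le_sum_of_subset_of_nonneg ?_ (fun _ _ _ => Nat.cast_nonneg _)
  intro ρ hρ
  rw [Set.Finite.mem_toFinset]
  obtain ⟨⟨h2, h3, h4⟩, h5⟩ := hS ρ hρ
  have h6 := abs_le.1 h5
  exact ⟨⟨⟨h3.le, h4.le⟩, ⟨h6.1, h6.2⟩⟩, h2⟩

theorem t_cnt : S_cnt := by
  obtain ⟨h, K₀, hh, hK₀, hwin⟩ := window_all
  obtain ⟨K, hK, hmain⟩ := cnt_abs Zs (fun ρ => (analyticOrderNatAt riemannZeta ρ : ℝ)) h K₀ hh hK₀
    (fun c hc S hS => (cnt_window c h S hS).trans (hwin c hc)) cnt_compact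
  refine ⟨K, hK, fun H hH => ?_⟩
  obtain ⟨B, hB, hBt⟩ := hmain H hH
  refine ⟨B, hB, fun t ht S hS => hBt t ht S fun ρ hρ => ?_⟩
  obtain ⟨h1, h2, h3, h4⟩ := hS ρ hρ
  exact ⟨⟨h1, h2, h3⟩, h4⟩

end Pool.Agent.Y338.HW
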